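import Mathlib

/-!
# The fractional minimal rank need not be attained

Over every field of characteristic zero there is an `8 × 8` partial matrix `𝒜` with
`mr_b(𝒜) = 5 b + 1` for all `b ≥ 1`; so `fmr(𝒜) = 5` and the infimum is not attained.
-/

namespace Pool.Agent.Results.MP_3569d7_al.NotAttained

open Matrix

/-- `M` is a completion of the partial matrix `P` (`none` stands for an unspecified entry). -/
def IsCompletion {I J F : Type} (P : Matrix I J (Option F)) (M : Matrix I J F) : Prop :=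
  ∀ i j a, P i j = some a → M i j = a

/-- The minimal rank of a partial matrix. -/
noncomputable def mr {I J F : Type} [Field F] [Fintype J] (P : Matrix I J (Option F)) : ℕ :=
  sInf {k : ℕ | ∃ M : Matrix I J F, IsCompletion P M ∧ M.rank = k}

/-- The partial block matrix `𝒜 ⊗ I_b`: the `(i,j)` block is `a_{ij} I_b` for a specified entry
and a fully unspecified block otherwise. -/
def tensorI {I J F : Type} [Field F] (A : Matrix I J (Option F)) (b : ℕ) :
    Matrix (I × Fin b) (J × Fin b) (Option F) :=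
  Matrix.of fun p q => (A p.1 q.1).map fun a => if p.2 = q.2 then a else 0

/-- `mr_b(𝒜) = mr(𝒜 ⊗ I_b)`. -/
noncomputable def mrb {m n : ℕ} {F : Type} [Field F] (A : Matrix (Fin m) (Fin n) (Option F))
    (b : ℕ) : ℕ := mr (tensorI A b)

/-- `fmr(𝒜) = inf_{b ≥ 1} mr_b(𝒜)/b`. -/
noncomputable def fmr {m n : ℕ} {F : Type} [Field F] (A : Matrix (Fin m) (Fin n) (Option F)) :
    ℝ := sInf {x : ℝ | ∃ b : ℕ, 1 ≤ b ∧ x = (mrb A b : ℝ) / b}

theorem rank_add_le'' {m n F : Type} [Fintype n] [Fintype m] [Field F] (A B : Matrix m n F) :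
    (A + B).rank ≤ A.rank + B.rank := by
  unfold Matrix.rank
  have h : LinearMap.range (A + B).mulVecLin ≤
      LinearMap.range A.mulVecLin ⊔ LinearMap.range B.mulVecLin := by
    rintro _ ⟨v, rfl⟩
    rw [Matrix.mulVecLin_add, LinearMap.add_apply]
    exact Submodule.add_mem_sup ⟨v, rfl⟩ ⟨v, rfl⟩
  exact (Submodule.finrank_mono h).trans (Submodule.finrank_add_le_finrank_add_finrank _ _)

/-! ### A Schur complement argument -/

section Schur

variable {F : Type} [Field F] {I J K : Type} [Fintype I] [Fintype K] [DecidableEq I]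

theorem schur_zero (B : Matrix I K F) (C : Matrix J I F) (D : Matrix J K F)
    (h : (fromBlocks 1 B C D).rank ≤ Fintype.card I) : D = C * B := by
  classical
  set M := fromBlocks (1 : Matrix I I F) B C D with hM
  let φ : LinearMap.ker M.mulVecLin →ₗ[F] (K → F) :=
    { toFun := fun v => fun k => v.1 (Sum.inr k)
      map_add' := fun u v => rfl
      map_smul' := fun c v => rfl }
  have hker : ∀ v : LinearMap.ker M.mulVecLin,
      (fun i => v.1 (Sum.inl i)) = -(B *ᵥ fun k => v.1 (Sum.inr k)) ∧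
      (C *ᵥ fun i => v.1 (Sum.inl i)) + (D *ᵥ fun k => v.1 (Sum.inr k)) = 0 := by
    rintro ⟨v, hv⟩
    have h1 : M *ᵥ v = 0 := hv
    have hv2 : v = Sum.elim (fun i => v (Sum.inl i)) (fun k => v (Sum.inr k)) := by
      funext s; cases s <;> rfl
    rw [hv2, hM, fromBlocks_mulVec] at h1
    have h2 : ∀ i, (fun i => v (Sum.inl i)) i + (B *ᵥ fun k => v (Sum.inr k)) i = 0 := by
      intro i
      have := congrFun h1 (Sum.inl i)
      simpa using this
    have h3 : ∀ j, (C *ᵥ fun i => v (Sum.inl i)) j + (D *ᵥ fun k => v (Sum.inr k)) j = 0 := by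
      intro j
      have := congrFun h1 (Sum.inr j)
      simpa using this
    refine ⟨?_, ?_⟩
    · funext i
      exact eq_neg_of_add_eq_zero_left (h2 i)
    · funext j
      exact h3 j
  have hinj : Function.Injective φ := by
    rw [injective_iff_map_eq_zero]
    intro v hv
    have h1 := (hker v).1
    have h2 : (fun k => v.1 (Sum.inr k)) = 0 := hv
    rw [h2, mulVec_zero, neg_zero] at h1
    apply Subtype.ext
    funext s
    cases s with
    | inl i => exact congrFun h1 i
    | inr k => exact congrFun h2 k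
  have hfin : Module.finrank F (LinearMap.ker M.mulVecLin) = Module.finrank F (K → F) := by
    apply le_antisymm (LinearMap.finrank_le_finrank_of_injective hinj)
    have h1 := LinearMap.finrank_range_add_finrank_ker M.mulVecLin
    have h2 : Module.finrank F (LinearMap.range M.mulVecLin) ≤ Fintype.card I := h
    simp only [Module.finrank_fintype_fun_eq_card, Fintype.card_sum] at h1 ⊢
    omega
  have hsurj : Function.Surjective φ :=
    (LinearMap.injective_iff_surjective_of_finrank_eq_finrank hfin).mp hinj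
  apply Matrix.ext_of_mulVec_single
  intro k
  obtain ⟨v, hv⟩ := hsurj (Pi.single k 1)
  have h1 := hker v
  have h2 : (fun k => v.1 (Sum.inr k)) = Pi.single k 1 := hv
  rw [h2] at h1
  rw [h1.1, mulVec_neg, mulVec_mulVec] at h1
  have h3 := h1.2
  rw [neg_add_eq_zero] at h3
  exact h3.symm

end Schur

/-! ### The example -/

section Example

variable (F : Type) [Field F]

/-- top right block -/
def B0 : Matrix (Fin 5) (Fin 3) (Option F) :=
  !![none, some 1, some 0;
     none, some 0, some 1;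
     some 0, none, none;
     some 1, some 1, some 0;
     some (-1), some 0, some 1]

/-- bottom left block -/
def C0 : Matrix (Fin 3) (Fin 5) (Option F) :=
  !![none, none, some 1, some 0, some 0;
     some 0, some 1, some 1, none, some 0;
     some 1, some 0, some 1, some 0, none]

/-- bottom right block -/
def D0 : Matrix (Fin 3) (Fin 3) (Option F) :=
  !![some 1, some 0, some 0;
     some 0, some 0, none;
     some 0, none, some 0]

/-- top left block -/
def I0 : Matrix (Fin 5) (Fin 5) (Option F) := Matrix.of fun i j => some (if i = j then 1 else 0)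

/-- the partial matrix on `Fin 5 ⊕ Fin 3` -/
def A0 : Matrix (Fin 5 ⊕ Fin 3) (Fin 5 ⊕ Fin 3) (Option F) := fromBlocks (I0 F) (B0 F) (C0 F) (D0 F)

/-- the `8 × 8` partial matrix -/
def A8 : Matrix (Fin 8) (Fin 8) (Option F) :=
  (A0 F).submatrix (finSumFinEquiv (m := 5) (n := 3)).symm (finSumFinEquiv (m := 5) (n := 3)).symm

variable {F}

/-- the reindexing -/
def ee (b : ℕ) : (Fin 5 × Fin b) ⊕ (Fin 3 × Fin b) ≃ Fin 8 × Fin b :=
  (Equiv.sumProdDistrib (Fin 5) (Fin 3) (Fin b)).symm.trans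
    (Equiv.prodCongr (finSumFinEquiv (m := 5) (n := 3)) (Equiv.refl _))

/-- blocks -/
def blk {b : ℕ} (M : Matrix (Fin 8 × Fin b) (Fin 8 × Fin b) F) (i j : Fin 5 ⊕ Fin 3) :
    Matrix (Fin b) (Fin b) F :=
  Matrix.of fun s t => M (finSumFinEquiv (m := 5) (n := 3) i, s) (finSumFinEquiv (m := 5) (n := 3) j, t)

theorem completion_iff {b : ℕ} (M : Matrix (Fin 8 × Fin b) (Fin 8 × Fin b) F) :
    IsCompletion (tensorI (A8 F) b) M ↔
      ∀ i j a, A0 F i j = some a → blk M i j = a • (1 : Matrix (Fin b) (Fin b) F) := by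
  constructor
  · intro h i j a ha
    ext s t
    have := h (finSumFinEquiv (m := 5) (n := 3) i, s) (finSumFinEquiv (m := 5) (n := 3) j, t)
      (if s = t then a else 0) (by simp [tensorI, A8, ha])
    rw [blk, of_apply, this]
    simp [Matrix.smul_apply, Matrix.one_apply]
  · intro h p q a ha
    obtain ⟨p, s⟩ := p
    obtain ⟨q, t⟩ := q
    obtain ⟨i, rfl⟩ := (finSumFinEquiv (m := 5) (n := 3)).surjective p
    obtain ⟨j, rfl⟩ := (finSumFinEquiv (m := 5) (n := 3)).surjective q
    simp only [tensorI, A8, of_apply, submatrix_apply, Equiv.symm_apply_apply,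
      Option.map_eq_some_iff] at ha
    obtain ⟨c, hc, hca⟩ := ha
    have := congrFun (congrFun (h i j c hc) s) t
    rw [blk, of_apply] at this
    rw [this, ← hca]
    simp [Matrix.smul_apply, Matrix.one_apply]

theorem lower [CharZero F] {b : ℕ} (hb : 1 ≤ b) (M : Matrix (Fin 8 × Fin b) (Fin 8 × Fin b) F)
    (hM : IsCompletion (tensorI (A8 F) b) M) : 5 * b + 1 ≤ M.rank := by
  rw [completion_iff] at hM
  by_contra hcon
  have hle : M.rank ≤ 5 * b := by omega
  set M' := M.submatrix (ee b) (ee b) with hM'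
  have hrank : M'.rank = M.rank := rank_submatrix M (ee b) (ee b)
  have hentry : ∀ (i j : Fin 5 ⊕ Fin 3) (s t : Fin b), blk M i j s t =
      M (finSumFinEquiv (m := 5) (n := 3) i, s) (finSumFinEquiv (m := 5) (n := 3) j, t) :=
    fun _ _ _ _ => rfl
  have hfb : M' = fromBlocks M'.toBlocks₁₁ M'.toBlocks₁₂ M'.toBlocks₂₁ M'.toBlocks₂₂ :=
    (fromBlocks_toBlocks M').symm
  have h11 : M'.toBlocks₁₁ = 1 := by
    ext ⟨i, s⟩ ⟨j, t⟩
    have h1 := hM (Sum.inl i) (Sum.inl j) (if i = j then 1 else 0) rfl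
    have h2 : M'.toBlocks₁₁ (i, s) (j, t) = blk M (Sum.inl i) (Sum.inl j) s t := rfl
    rw [h2, h1]
    by_cases hij : i = j <;> by_cases hst : s = t <;>
      simp [Matrix.smul_apply, Matrix.one_apply, hij, hst]
  rw [h11] at hfb
  have hcard : Fintype.card (Fin 5 × Fin b) = 5 * b := by simp
  have hS := schur_zero M'.toBlocks₁₂ M'.toBlocks₂₁ M'.toBlocks₂₂ (by
    rw [← hfb, hrank, hcard]; exact hle)
  have hblk : ∀ i j : Fin 3, blk M (Sum.inr i) (Sum.inr j) =
      ∑ k : Fin 5, blk M (Sum.inr i) (Sum.inl k) * blk M (Sum.inl k) (Sum.inr j) := by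
    intro i j
    ext s t
    have h1 := congrFun (congrFun hS (i, s)) (j, t)
    rw [Matrix.mul_apply, Fintype.sum_prod_type] at h1
    rw [Matrix.sum_apply]
    simp only [Matrix.mul_apply]
    exact h1
  have e00 := hblk 0 0
  have e01 := hblk 0 1
  have e02 := hblk 0 2
  have e10 := hblk 1 0
  have e11 := hblk 1 1
  have e20 := hblk 2 0
  have e22 := hblk 2 2
  rw [Fin.sum_univ_five] at e00 e01 e02 e10 e11 e20 e22
  rw [hM (Sum.inr 0) (Sum.inr 0) 1 rfl, hM (Sum.inr 0) (Sum.inl 2) 1 rfl,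
    hM (Sum.inr 0) (Sum.inl 3) 0 rfl, hM (Sum.inr 0) (Sum.inl 4) 0 rfl,
    hM (Sum.inl 2) (Sum.inr 0) 0 rfl] at e00
  rw [hM (Sum.inr 0) (Sum.inr 1) 0 rfl, hM (Sum.inr 0) (Sum.inl 2) 1 rfl,
    hM (Sum.inr 0) (Sum.inl 3) 0 rfl, hM (Sum.inr 0) (Sum.inl 4) 0 rfl,
    hM (Sum.inl 0) (Sum.inr 1) 1 rfl, hM (Sum.inl 1) (Sum.inr 1) 0 rfl] at e01
  rw [hM (Sum.inr 0) (Sum.inr 2) 0 rfl, hM (Sum.inr 0) (Sum.inl 2) 1 rfl,
    hM (Sum.inr 0) (Sum.inl 3) 0 rfl, hM (Sum.inr 0) (Sum.inl 4) 0 rfl,
    hM (Sum.inl 0) (Sum.inr 2) 0 rfl, hM (Sum.inl 1) (Sum.inr 2) 1 rfl] at e02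
  rw [hM (Sum.inr 1) (Sum.inr 0) 0 rfl, hM (Sum.inr 1) (Sum.inl 0) 0 rfl,
    hM (Sum.inr 1) (Sum.inl 1) 1 rfl, hM (Sum.inr 1) (Sum.inl 2) 1 rfl,
    hM (Sum.inr 1) (Sum.inl 4) 0 rfl, hM (Sum.inl 2) (Sum.inr 0) 0 rfl,
    hM (Sum.inl 3) (Sum.inr 0) 1 rfl] at e10
  rw [hM (Sum.inr 1) (Sum.inr 1) 0 rfl, hM (Sum.inr 1) (Sum.inl 0) 0 rfl,
    hM (Sum.inr 1) (Sum.inl 1) 1 rfl, hM (Sum.inr 1) (Sum.inl 2) 1 rfl,
    hM (Sum.inr 1) (Sum.inl 4) 0 rfl, hM (Sum.inl 1) (Sum.inr 1) 0 rfl,
    hM (Sum.inl 3) (Sum.inr 1) 1 rfl] at e11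
  rw [hM (Sum.inr 2) (Sum.inr 0) 0 rfl, hM (Sum.inr 2) (Sum.inl 0) 1 rfl,
    hM (Sum.inr 2) (Sum.inl 1) 0 rfl, hM (Sum.inr 2) (Sum.inl 2) 1 rfl,
    hM (Sum.inr 2) (Sum.inl 3) 0 rfl, hM (Sum.inl 2) (Sum.inr 0) 0 rfl,
    hM (Sum.inl 4) (Sum.inr 0) (-1) rfl] at e20
  rw [hM (Sum.inr 2) (Sum.inr 2) 0 rfl, hM (Sum.inr 2) (Sum.inl 0) 1 rfl,
    hM (Sum.inr 2) (Sum.inl 1) 0 rfl, hM (Sum.inr 2) (Sum.inl 2) 1 rfl,
    hM (Sum.inr 2) (Sum.inl 3) 0 rfl, hM (Sum.inl 0) (Sum.inr 2) 0 rfl,
    hM (Sum.inl 4) (Sum.inr 2) 1 rfl] at e22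
  simp only [one_smul, zero_smul, neg_smul, Matrix.mul_one, Matrix.one_mul, Matrix.mul_zero,
    Matrix.zero_mul, add_zero, zero_add, Matrix.mul_neg] at e00 e01 e02 e10 e11 e20 e22
  set X := blk M (Sum.inr 0) (Sum.inl 0)
  set Y := blk M (Sum.inr 0) (Sum.inl 1)
  set P := blk M (Sum.inl 0) (Sum.inr 0)
  set Q := blk M (Sum.inl 1) (Sum.inr 0)
  set U1 := blk M (Sum.inl 2) (Sum.inr 1)
  set U2 := blk M (Sum.inl 2) (Sum.inr 2)
  set V1 := blk M (Sum.inr 1) (Sum.inl 3)
  set V2 := blk M (Sum.inr 2) (Sum.inl 4)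
  have hU1 : U1 = -X := eq_neg_of_add_eq_zero_right e01.symm
  have hU2 : U2 = -Y := eq_neg_of_add_eq_zero_right e02.symm
  have hV1 : V1 = X := by
    rw [hU1] at e11
    exact (neg_add_eq_zero.mp e11.symm).symm
  have hQ : Q = -X := by
    rw [hV1] at e10
    exact eq_neg_of_add_eq_zero_left e10.symm
  have hV2 : V2 = Y := by
    rw [hU2] at e22
    exact (neg_add_eq_zero.mp e22.symm).symm
  have hP : P = Y := by
    rw [hV2] at e20
    exact eq_of_sub_eq_zero (by rw [sub_eq_add_neg]; exact e20.symm)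
  rw [hP, hQ, Matrix.mul_neg] at e00
  have htr := congrArg Matrix.trace e00
  rw [trace_one, trace_add, trace_neg, trace_mul_comm Y X, add_neg_cancel, Fintype.card_fin] at htr
  have : b = 0 := by exact_mod_cast htr
  omega

/-- The truncated Weyl pair. -/
theorem weyl (n : ℕ) : ∃ (X Y : Matrix (Fin (n + 1)) (Fin (n + 1)) F) (v w : Fin (n + 1) → F),
    1 - (X * Y - Y * X) = vecMulVec v w := by
  refine ⟨Matrix.of fun s t => if s.val + 1 = t.val then 1 else 0,
    Matrix.of fun s t => if s.val = t.val + 1 then (s.val : F) else 0,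
    fun s => if s.val = n then (n + 1 : F) else 0, fun s => if s.val = n then 1 else 0, ?_⟩
  ext s t
  rw [Matrix.sub_apply, Matrix.sub_apply, Matrix.mul_apply, Matrix.mul_apply, vecMulVec_apply,
    Matrix.one_apply]
  simp only [of_apply]
  have h1 : ∑ x : Fin (n + 1), (if s.val + 1 = x.val then (1 : F) else 0) *
      (if x.val = t.val + 1 then (x.val : F) else 0) =
      if s = t ∧ s.val < n then ((s.val : F) + 1) else 0 := by
    by_cases hs : s.val < n
    · rw [Finset.sum_eq_single ⟨s.val + 1, by omega⟩]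
      · by_cases hst : s = t
        · subst hst; simp [hs]
        · have : s.val ≠ t.val := fun h => hst (Fin.ext h)
          simp [hst, this]
      · intro x _ hx
        have : s.val + 1 ≠ x.val := fun h => hx (Fin.ext h.symm)
        simp [this]
      · intro h; exact absurd (Finset.mem_univ _) h
    · rw [Finset.sum_eq_zero]
      · simp [hs]
      · intro x _
        have : s.val + 1 ≠ x.val := by have := x.isLt; omega
        simp [this]
  have h2 : ∑ x : Fin (n + 1), (if s.val = x.val + 1 then (s.val : F) else 0) *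
      (if x.val + 1 = t.val then (1 : F) else 0) = if s = t then (s.val : F) else 0 := by
    by_cases hs : 0 < s.val
    · rw [Finset.sum_eq_single ⟨s.val - 1, by omega⟩]
      · have h3 : s.val = s.val - 1 + 1 := by omega
        simp only [← h3, if_true]
        by_cases hst : s = t
        · simp [hst]
        · have : s.val ≠ t.val := fun h => hst (Fin.ext h)
          simp [hst, this]
      · intro x _ hx
        have : s.val ≠ x.val + 1 := fun h => hx (Fin.ext (by simp; omega))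
        simp [this]
      · intro h; exact absurd (Finset.mem_univ _) h
    · have h0 : s.val = 0 := by omega
      rw [Finset.sum_eq_zero]
      · simp [h0]
      · intro x _
        have : s.val ≠ x.val + 1 := by omega
        simp [this]
  rw [h1, h2]
  by_cases hst : s = t
  · subst hst
    by_cases hs : s.val < n
    · have : s.val ≠ n := by omega
      simp [hs, this]
    · have : s.val = n := by have := s.isLt; omega
      simp [this]
      ring
  · by_cases hs : s.val = n
    · have ht : t.val ≠ n := fun h => hst (Fin.ext (by omega))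
      simp [hst, ht]
    · simp [hst, hs]

/-- the top right blocks of the completion -/
def Bb {b : ℕ} (X Y : Matrix (Fin b) (Fin b) F) : Fin 5 → Fin 3 → Matrix (Fin b) (Fin b) F :=
  ![![Y, 1, 0], ![-X, 0, 1], ![0, -X, -Y], ![1, 1, 0], ![-1, 0, 1]]

/-- the bottom left blocks of the completion -/
def Cb {b : ℕ} (X Y : Matrix (Fin b) (Fin b) F) : Fin 3 → Fin 5 → Matrix (Fin b) (Fin b) F :=
  ![![X, Y, 1, 0, 0], ![0, 1, 1, X, 0], ![1, 0, 1, 0, Y]]

theorem upper (n : ℕ) : ∃ M : Matrix (Fin 8 × Fin (n + 1)) (Fin 8 × Fin (n + 1)) F,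
    IsCompletion (tensorI (A8 F) (n + 1)) M ∧ M.rank ≤ 5 * (n + 1) + 1 := by
  obtain ⟨X, Y, v, w, hvw⟩ := weyl (F := F) n
  set B : Matrix (Fin 5 × Fin (n + 1)) (Fin 3 × Fin (n + 1)) F :=
    Matrix.of fun p q => Bb X Y p.1 q.1 p.2 q.2 with hB
  set C : Matrix (Fin 3 × Fin (n + 1)) (Fin 5 × Fin (n + 1)) F :=
    Matrix.of fun p q => Cb X Y p.1 q.1 p.2 q.2 with hC
  set E : Matrix (Fin 3 × Fin (n + 1)) (Fin 3 × Fin (n + 1)) F :=
    vecMulVec (fun p => if p.1 = 0 then v p.2 else 0) (fun p => if p.1 = 0 then w p.2 else 0)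
    with hE
  set M' := fromBlocks (1 : Matrix (Fin 5 × Fin (n + 1)) (Fin 5 × Fin (n + 1)) F) B C (C * B + E)
    with hM'
  refine ⟨M'.submatrix (ee (n + 1)).symm (ee (n + 1)).symm, ?_, ?_⟩
  · rw [completion_iff]
    have hb : ∀ i j, blk (M'.submatrix (ee (n + 1)).symm (ee (n + 1)).symm) i j =
        Matrix.of fun s t => M' ((Equiv.sumProdDistrib (Fin 5) (Fin 3) (Fin (n + 1))) (i, s))
          ((Equiv.sumProdDistrib (Fin 5) (Fin 3) (Fin (n + 1))) (j, t)) := by
      intro i j
      ext s t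
      simp [blk, ee]
    intro i j a ha
    rw [hb]
    rcases i with i | i <;> rcases j with j | j
    · have ha' : (if i = j then (1 : F) else 0) = a := by
        simpa [A0, I0] using ha
      rw [← ha']
      ext s t
      simp only [of_apply, Equiv.sumProdDistrib_apply_left, hM', fromBlocks_apply₁₁,
        Matrix.one_apply, Matrix.smul_apply, Prod.mk.injEq]
      by_cases hij : i = j <;> by_cases hst : s = t <;> simp [hij, hst]
    · have h1 : (Matrix.of fun s t => M' ((Equiv.sumProdDistrib (Fin 5) (Fin 3) (Fin (n + 1)))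
          (Sum.inl i, s)) ((Equiv.sumProdDistrib (Fin 5) (Fin 3) (Fin (n + 1))) (Sum.inr j, t))) =
          Bb X Y i j := by
        ext s t; rfl
      rw [h1]
      have ha' : B0 F i j = some a := ha
      fin_cases i <;> fin_cases j <;> simp [B0] at ha' <;> subst ha' <;> simp [Bb]
    · have h1 : (Matrix.of fun s t => M' ((Equiv.sumProdDistrib (Fin 5) (Fin 3) (Fin (n + 1)))
          (Sum.inr i, s)) ((Equiv.sumProdDistrib (Fin 5) (Fin 3) (Fin (n + 1))) (Sum.inl j, t))) =
          Cb X Y i j := by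
        ext s t; rfl
      rw [h1]
      have ha' : C0 F i j = some a := ha
      fin_cases i <;> fin_cases j <;> simp [C0] at ha' <;> subst ha' <;> simp [Cb]
    · have h1 : (Matrix.of fun s t => M' ((Equiv.sumProdDistrib (Fin 5) (Fin 3) (Fin (n + 1)))
          (Sum.inr i, s)) ((Equiv.sumProdDistrib (Fin 5) (Fin 3) (Fin (n + 1))) (Sum.inr j, t))) =
          ∑ k, Cb X Y i k * Bb X Y k j + (if i = 0 ∧ j = 0 then 1 - (X * Y - Y * X) else 0) := by
        ext s t
        have h2 : (C * B) (i, s) (j, t) = (∑ k, Cb X Y i k * Bb X Y k j) s t := by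
          rw [Matrix.mul_apply, Fintype.sum_prod_type, Matrix.sum_apply]
          rfl
        have h3 : E (i, s) (j, t) =
            (if i = 0 ∧ j = 0 then 1 - (X * Y - Y * X) else 0 : Matrix _ _ F) s t := by
          rw [hE, vecMulVec_apply, hvw]
          by_cases hi : i = 0 <;> by_cases hj : j = 0 <;> simp [hi, hj, vecMulVec_apply]
        rw [Matrix.add_apply, ← h2, ← h3]
        rfl
      rw [h1, Fin.sum_univ_five]
      have ha' : D0 F i j = some a := ha
      fin_cases i <;> fin_cases j <;> simp [D0] at ha' <;> subst ha' <;> simp [Bb, Cb]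
      abel
  · rw [rank_submatrix]
    have h1 : M' = fromRows 1 C * fromCols 1 B + fromBlocks 0 0 0 E := by
      rw [fromRows_mul_fromCols, fromBlocks_add]
      simp [hM']
    rw [h1]
    refine (rank_add_le'' _ _).trans (add_le_add ?_ ?_)
    · refine (rank_mul_le_left _ _).trans ?_
      refine (rank_le_card_width _).trans ?_
      simp
    · have h2 : (fromBlocks 0 0 0 E : Matrix ((Fin 5 × Fin (n + 1)) ⊕ (Fin 3 × Fin (n + 1)))
          ((Fin 5 × Fin (n + 1)) ⊕ (Fin 3 × Fin (n + 1))) F) =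
          vecMulVec (Sum.elim 0 fun p => if p.1 = 0 then v p.2 else 0)
            (Sum.elim 0 fun p => if p.1 = 0 then w p.2 else 0) := by
        ext p q
        rcases p with p | p <;> rcases q with q | q <;> simp [vecMulVec_apply, hE]
      rw [h2]
      exact rank_vecMulVec_le _ _

end Example

/-- **Negative answer to Q1 over every field of characteristic zero** (in particular over `ℂ`). -/
theorem result (F : Type) [Field F] [CharZero F] :
    ∃ A : Matrix (Fin 8) (Fin 8) (Option F),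
      (∀ b : ℕ, 1 ≤ b → mrb A b = 5 * b + 1) ∧ fmr A = 5 ∧
      ∀ b : ℕ, 1 ≤ b → fmr A < (mrb A b : ℝ) / b := by
  have hmr : ∀ b : ℕ, 1 ≤ b → mrb (A8 F) b = 5 * b + 1 := by
    intro b hb
    obtain ⟨n, rfl⟩ : ∃ n, b = n + 1 := ⟨b - 1, by omega⟩
    obtain ⟨M, hM, hrank⟩ := upper (F := F) n
    have hlow := lower hb M hM
    have hset : (5 * (n + 1) + 1) ∈ {k : ℕ | ∃ M : Matrix (Fin 8 × Fin (n + 1))
        (Fin 8 × Fin (n + 1)) F, IsCompletion (tensorI (A8 F) (n + 1)) M ∧ M.rank = k} :=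
      ⟨M, hM, le_antisymm hrank hlow⟩
    apply le_antisymm
    · exact Nat.sInf_le hset
    · refine le_csInf ⟨_, hset⟩ ?_
      rintro k ⟨M', hM', rfl⟩
      exact lower hb M' hM'
  have hbdd : BddBelow {x : ℝ | ∃ b : ℕ, 1 ≤ b ∧ x = (mrb (A8 F) b : ℝ) / b} := by
    refine ⟨0, ?_⟩
    rintro x ⟨b, _, rfl⟩
    positivity
  have hgt : ∀ b : ℕ, 1 ≤ b → (5 : ℝ) < (mrb (A8 F) b : ℝ) / b := by
    intro b hb
    have hb0 : (0 : ℝ) < b := by exact_mod_cast hb
    rw [hmr b hb, lt_div_iff₀ hb0]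
    push_cast
    linarith
  have hfmr : fmr (A8 F) = 5 := by
    apply le_antisymm
    · refine le_of_forall_pos_le_add fun ε hε => ?_
      obtain ⟨b, hb⟩ := exists_nat_gt (1 / ε)
      have hb0 : (0 : ℝ) < b := lt_trans (by positivity) hb
      have hb1 : 1 ≤ b := by exact_mod_cast hb0
      refine (csInf_le hbdd ⟨b, hb1, rfl⟩).trans ?_
      rw [hmr b hb1, div_le_iff₀ hb0]
      push_cast
      have : 1 ≤ ε * b := by
        rw [div_lt_iff₀ hε] at hb
        linarith
      linarith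
    · refine le_csInf ⟨_, 1, le_rfl, rfl⟩ ?_
      rintro x ⟨b, hb, rfl⟩
      exact (hgt b hb).le
  exact ⟨A8 F, hmr, hfmr, fun b hb => by rw [hfmr]; exact hgt b hb⟩

end Pool.Agent.Results.MP_3569d7_al.NotAttained
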